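import Pool.Agent.W95.BK.Stm

set_option autoImplicit false

/-!
# Uniform integrability near a classical point (project BK of helper95)
-/

open Polynomial Topology Filter MeasureTheory
open scoped ENNReal

namespace Pool.Agent.W15.BK

open Pool.Agent.W95.BK

universe u

/-! ### layer cake -/

theorem max_le_count (u : ℝ) (J : ℕ) (h : u ≤ J) :
    max 0 u ≤ ∑ j ∈ Finset.range (J + 1), if (j : ℝ) < u then (1 : ℝ) else 0 := by
  rw [← Finset.sum_filter, Finset.sum_const, nsmul_eq_mul, mul_one]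
  refine max_le (by positivity) ?_
  have h1 : Finset.range ⌈u⌉₊ ⊆ (Finset.range (J + 1)).filter (fun j : ℕ => (j : ℝ) < u) := by
    intro j hj
    rw [Finset.mem_range, Nat.lt_ceil] at hj
    rw [Finset.mem_filter, Finset.mem_range]
    refine ⟨?_, hj⟩
    have : (j : ℝ) < J := hj.trans_le h
    have := Nat.cast_lt.1 this
    omega
  have h2 := Finset.card_le_card h1
  rw [Finset.card_range] at h2
  exact (Nat.le_ceil u).trans (by exact_mod_cast h2)

open Classical in
theorem layer {α : Type*} (I : Finset α) (w : α → ℕ) (u : α → ℝ) (J : ℕ) (b : ℕ → ℝ)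
    (hu : ∀ x ∈ I, u x ≤ J)
    (hb : ∀ j < J + 1, ((∑ x ∈ I.filter (fun x => (j : ℝ) < u x), w x : ℕ) : ℝ) ≤ b j) :
    ∑ x ∈ I, (w x : ℝ) * max 0 (u x) ≤ ∑ j ∈ Finset.range (J + 1), b j := by
  calc ∑ x ∈ I, (w x : ℝ) * max 0 (u x)
      ≤ ∑ x ∈ I, (w x : ℝ) * ∑ j ∈ Finset.range (J + 1), (if (j : ℝ) < u x then (1 : ℝ) else 0) :=
        Finset.sum_le_sum fun x hx => mul_le_mul_of_nonneg_left (max_le_count _ _ (hu x hx))
          (by positivity)
    _ = ∑ j ∈ Finset.range (J + 1), ∑ x ∈ I, (w x : ℝ) * (if (j : ℝ) < u x then (1 : ℝ) else 0) := by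
        rw [Finset.sum_comm]
        refine Finset.sum_congr rfl fun x _ => ?_
        rw [Finset.mul_sum]
    _ ≤ ∑ j ∈ Finset.range (J + 1), b j := by
        refine Finset.sum_le_sum fun j hj => ?_
        refine le_trans (le_of_eq ?_) (hb j (Finset.mem_range.1 hj))
        push_cast
        rw [Finset.sum_filter]
        refine Finset.sum_congr rfl fun x _ => ?_
        split_ifs <;> simp

theorem growth (A b ε : ℝ) (hε : 0 < ε) (d : ℕ) (hd : 2 ≤ d) :
    ∀ᶠ n : ℕ in atTop, A + b * n ≤ ε * (d : ℝ) ^ n := by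
  have hd' : (1 : ℝ) < d := by exact_mod_cast (show 1 < d by omega)
  have h0 := (tendsto_pow_const_div_const_pow_of_one_lt 0 hd').const_mul A
  have h1 := (tendsto_pow_const_div_const_pow_of_one_lt 1 hd').const_mul b
  have h2 := h0.add h1
  simp only [mul_zero, add_zero] at h2
  have h3 := h2.eventually (eventually_le_nhds hε)
  filter_upwards [h3] with n hn
  have hp : (0 : ℝ) < (d : ℝ) ^ n := by positivity
  have : A * ((n : ℝ) ^ 0 / (d : ℝ) ^ n) + b * ((n : ℝ) ^ 1 / (d : ℝ) ^ n) =
      (A + b * n) / (d : ℝ) ^ n := by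
    field_simp
  rw [this, div_le_iff₀ hp] at hn
  exact hn

section
variable {K : Type u} [NontriviallyNormedField K]

theorem BA_C_mul (x : BA K) (a : K) (h : K[X]) : x (C a * h) = ‖a‖ * x h := by
  rw [x.map_mul', x.map_C']

variable [IsUltrametricDist K] [IsAlgClosed K]

theorem Mx_le (hN : S_NWI.{u}) (f : RMap K) (a : K) (r : ℝ) (hr : 0 < r) :
    Mx f a r ≤ max (max 1 ‖a‖) r * max ((gauss a r hr) f.P) ((gauss a r hr) f.Q) := by
  set x : BA K := gauss a r hr with hx
  set G := max (x f.P) (x f.Q) with hG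
  have hP : x f.P ≤ G := le_max_left _ _
  have hQ : x f.Q ≤ G := le_max_right _ _
  have hG0 : 0 ≤ G := (x.nonneg' _).trans hP
  have h1 : (1 : ℝ) ≤ max (max 1 ‖a‖) r := (le_max_left _ _).trans (le_max_left _ _)
  have h2 : ‖a‖ ≤ max (max 1 ‖a‖) r := (le_max_right _ _).trans (le_max_left _ _)
  have h3 : r ≤ max (max 1 ‖a‖) r := le_max_right _ _
  rw [(hN K f a r hr).2.1]
  refine max_le ?_ ?_
  · change x (f.P - C a * f.Q) ≤ _
    have e : f.P - C a * f.Q = f.P + C (-a) * f.Q := by rw [C_neg]; ring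
    rw [e]
    refine (x.map_add' _ _).trans (max_le ?_ ?_)
    · calc x f.P ≤ 1 * G := by rw [one_mul]; exact hP
        _ ≤ _ := mul_le_mul_of_nonneg_right h1 hG0
    · change x (C (-a) * f.Q) ≤ _
      rw [BA_C_mul, norm_neg]
      exact mul_le_mul h2 hQ (x.nonneg' _) (by linarith)
  · exact mul_le_mul h3 hQ (x.nonneg' _) (by linarith)

theorem le_Mx (hN : S_NWI.{u}) (f : RMap K) (a : K) (r : ℝ) (hr : 0 < r) :
    max ((gauss a r hr) f.P) ((gauss a r hr) f.Q) ≤ max (max 1 (‖a‖ / r)) (1 / r) * Mx f a r := by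
  set x : BA K := gauss a r hr with hx
  have hM0 : 0 < Mx f a r := (hN K f a r hr).1.1
  have e0 := (hN K f a r hr).2.1
  have hA : x (f.P - C a * f.Q) ≤ Mx f a r := by rw [e0]; exact le_max_left _ _
  have hB : r * x f.Q ≤ Mx f a r := by rw [e0]; exact le_max_right _ _
  have hB' : x f.Q ≤ 1 / r * Mx f a r := by
    rw [div_mul_eq_mul_div, one_mul, le_div_iff₀ hr, mul_comm]
    exact hB
  have h1 : (1 : ℝ) ≤ max (max 1 (‖a‖ / r)) (1 / r) := (le_max_left _ _).trans (le_max_left _ _)
  have h2 : ‖a‖ / r ≤ max (max 1 (‖a‖ / r)) (1 / r) := (le_max_right _ _).trans (le_max_left _ _)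
  have h3 : 1 / r ≤ max (max 1 (‖a‖ / r)) (1 / r) := le_max_right _ _
  refine max_le ?_ ?_
  · have e : f.P = (f.P - C a * f.Q) + C a * f.Q := by ring
    rw [e]
    refine (x.map_add' _ _).trans (max_le ?_ ?_)
    · calc x (f.P - C a * f.Q) ≤ 1 * Mx f a r := by rw [one_mul]; exact hA
        _ ≤ _ := mul_le_mul_of_nonneg_right h1 hM0.le
    · change x (C a * f.Q) ≤ _
      rw [BA_C_mul]
      calc ‖a‖ * x f.Q ≤ ‖a‖ * (1 / r * Mx f a r) := mul_le_mul_of_nonneg_left hB' (norm_nonneg _)
        _ = ‖a‖ / r * Mx f a r := by ring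
        _ ≤ _ := mul_le_mul_of_nonneg_right h2 hM0.le
  · exact hB'.trans (mul_le_mul_of_nonneg_right h3 hM0.le)

theorem logMx_le (hN : S_NWI.{u}) {R : RMap K} {B : ℝ} (hd : 2 ≤ R.d)
    (hB : ∀ x : BA K, ∀ n : ℕ, 0 < max (x (R.iter n).P) (x (R.iter n).Q) ∧
      |Real.log (max (x (R.iter n).P) (x (R.iter n).Q)) / (R.d : ℝ) ^ n - gr R x| ≤
        B / (R.d : ℝ) ^ n) (n : ℕ) (a : K) (r : ℝ) (hr : 0 < r) :
    Real.log (Mx (R.iter n) a r) ≤
      Real.log (max (max 1 ‖a‖) r) + (R.d : ℝ) ^ n * gr R (gauss a r hr) + B ∧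
    (R.d : ℝ) ^ n * gr R (gauss a r hr) - B - Real.log (max (max 1 (‖a‖ / r)) (1 / r)) ≤
      Real.log (Mx (R.iter n) a r) := by
  have hM0 : 0 < Mx (R.iter n) a r := (hN K (R.iter n) a r hr).1.1
  obtain ⟨g1, g2⟩ := hB (gauss a r hr) n
  have hp : (0 : ℝ) < (R.d : ℝ) ^ n := by
    have : (0 : ℝ) < R.d := by exact_mod_cast (show 0 < R.d by omega)
    positivity
  set G := max ((gauss a r hr) (R.iter n).P) ((gauss a r hr) (R.iter n).Q) with hG
  have g3 : |Real.log G - (R.d : ℝ) ^ n * gr R (gauss a r hr)| ≤ B := by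
    have : Real.log G - (R.d : ℝ) ^ n * gr R (gauss a r hr) =
        (R.d : ℝ) ^ n * (Real.log G / (R.d : ℝ) ^ n - gr R (gauss a r hr)) := by
      field_simp
    rw [this, abs_mul, abs_of_pos hp]
    calc _ ≤ (R.d : ℝ) ^ n * (B / (R.d : ℝ) ^ n) := mul_le_mul_of_nonneg_left g2 hp.le
      _ = B := by field_simp
  rw [abs_le] at g3
  have m1 : (0 : ℝ) < max (max 1 ‖a‖) r := lt_of_lt_of_le hr (le_max_right _ _)
  have m2 : (0 : ℝ) < max (max 1 (‖a‖ / r)) (1 / r) :=
    lt_of_lt_of_le one_pos ((le_max_left _ _).trans (le_max_left _ _))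
  constructor
  · have := Real.log_le_log hM0 (Mx_le hN (R.iter n) a r hr)
    rw [Real.log_mul m1.ne' g1.ne'] at this
    linarith [g3.2]
  · have := Real.log_le_log g1 (le_Mx hN (R.iter n) a r hr)
    rw [Real.log_mul m2.ne' hM0.ne'] at this
    linarith [g3.1]

end

theorem uic (hC : S_C.{u}) (hN : S_NWI.{u}) (hG : S_GREEN.{u}) (hP : S_PATH0.{u})
    (hI : S_ITER.{u}) : S_UIC.{u} := by
  classical
  intro K _ _ _ R hd c B ε hB hε
  obtain ⟨B', hB'0, hB'⟩ := hG K R hd
  obtain ⟨δ₀, hδ₀, hpath⟩ := hP K R hd c (ε / 2) (by positivity)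
  have hiter := (hI K R).1
  set δ : ℝ := δ₀ / 3 with hδ
  have hδ0 : 0 < δ := by positivity
  have hδe : δ * Real.exp 1 < δ₀ := by
    have := Real.exp_one_lt_three
    rw [hδ]
    nlinarith
  refine ⟨δ, hδ0, ?_⟩
  set A : ℝ := Real.log (max (max 1 ‖c‖) (δ * Real.exp 1)) + 2 * B' +
    Real.log (max (max 1 (‖c‖ / δ)) (1 / δ)) + |Real.log δ| + 1 with hA
  filter_upwards [growth A (Real.log B) (ε / 2) (by positivity) R.d hd] with n hn
  intro I hII
  have hp : (0 : ℝ) < (R.d : ℝ) ^ n := by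
    have : (0 : ℝ) < R.d := by exact_mod_cast (show 0 < R.d by omega)
    positivity
  have hlB : 0 ≤ Real.log B := Real.log_nonneg hB
  set J : ℕ := ⌈|Real.log δ| + n * Real.log B⌉₊ with hJ
  have hJ1 : |Real.log δ| + n * Real.log B ≤ J := Nat.le_ceil _
  have hJ2 : (J : ℝ) < |Real.log δ| + n * Real.log B + 1 := Nat.ceil_lt_add_one (by positivity)
  have hlam : ∀ x ∈ I, 0 < lam x c := by
    intro x hx
    have h1 := (hII x hx).2
    have hBn : (0 : ℝ) < B ^ n := by positivity
    by_contra hneg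
    push Not at hneg
    nlinarith
  have hwt : ∀ x ∈ I, ((localDeg (R.iter n) (x : P1B K) : ℝ) - 1) =
      ((localDeg (R.iter n) (x : P1B K) - 1 : ℕ) : ℝ) := by
    intro x hx
    have := (hII x hx).1.2.2
    rw [Nat.cast_sub (by omega)]
    simp
  have hre : ∑ x ∈ I, ((localDeg (R.iter n) (x : P1B K) : ℝ) - 1) *
      max 0 (Real.log (δ / lam x c)) =
      ∑ x ∈ I, ((localDeg (R.iter n) (x : P1B K) - 1 : ℕ) : ℝ) *
      max 0 (Real.log (δ / lam x c)) := Finset.sum_congr rfl fun x hx => by rw [hwt x hx]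
  rw [hre]
  set φ : ℕ → ℝ := fun j => Real.log (Mx (R.iter n) c (δ * Real.exp (1 - j))) with hφ
  have hlay := layer I (fun x => localDeg (R.iter n) (x : P1B K) - 1)
    (fun x => Real.log (δ / lam x c)) J (fun j => φ j - φ (j + 1)) ?_ ?_
  · refine hlay.trans ?_
    rw [Finset.sum_range_sub']
    have r0 : (0 : ℝ) < δ * Real.exp 1 := by positivity
    have r1 : (0 : ℝ) < δ * Real.exp (-J) := by positivity
    have e0 : φ 0 = Real.log (Mx (R.iter n) c (δ * Real.exp 1)) := by
      simp only [hφ]; simp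
    have e1 : φ (J + 1) = Real.log (Mx (R.iter n) c (δ * Real.exp (-J))) := by
      simp only [hφ]; push_cast; congr 3; ring_nf
    have b0 := (logMx_le hN hd (fun x n => (hB' x).2 n) n c _ r0).1
    have b1 := (logMx_le hN hd (fun x n => (hB' x).2 n) n c _ r1).2
    have hexp : Real.exp (-(J : ℝ)) ≤ 1 := Real.exp_le_one_iff.2 (by simp)
    have b2 : δ * Real.exp (-J) < δ₀ := by
      have : δ < δ₀ := by rw [hδ]; linarith
      nlinarith
    have b3 := (abs_lt.1 (hpath _ _ r0 r1 hδe b2)).2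
    have b4 : Real.log (max (max 1 (‖c‖ / (δ * Real.exp (-J)))) (1 / (δ * Real.exp (-J)))) ≤
        Real.log (max (max 1 (‖c‖ / δ)) (1 / δ)) + J := by
      have hm : (0 : ℝ) < max (max 1 (‖c‖ / δ)) (1 / δ) :=
        lt_of_lt_of_le one_pos ((le_max_left _ _).trans (le_max_left _ _))
      have hle : max (max 1 (‖c‖ / (δ * Real.exp (-J)))) (1 / (δ * Real.exp (-J))) ≤
          max (max 1 (‖c‖ / δ)) (1 / δ) * Real.exp J := by
        have hE : (1 : ℝ) ≤ Real.exp J := Real.one_le_exp (by positivity)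
        have hEE : Real.exp (-(J : ℝ)) = (Real.exp J)⁻¹ := Real.exp_neg _
        refine max_le (max_le ?_ ?_) ?_
        · calc (1 : ℝ) ≤ max (max 1 (‖c‖ / δ)) (1 / δ) * 1 := by
                rw [mul_one]; exact (le_max_left _ _).trans (le_max_left _ _)
            _ ≤ _ := mul_le_mul_of_nonneg_left hE hm.le
        · calc ‖c‖ / (δ * Real.exp (-J)) = ‖c‖ / δ * Real.exp J := by
                rw [hEE]; field_simp
            _ ≤ _ := mul_le_mul_of_nonneg_right ((le_max_right _ _).trans (le_max_left _ _))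
              (by positivity)
        · calc 1 / (δ * Real.exp (-J)) = 1 / δ * Real.exp J := by
                rw [hEE]; field_simp
            _ ≤ _ := mul_le_mul_of_nonneg_right (le_max_right _ _) (by positivity)
      have := Real.log_le_log (lt_of_lt_of_le one_pos
        ((le_max_left _ _).trans (le_max_left _ _))) hle
      rw [Real.log_mul hm.ne' (Real.exp_pos _).ne', Real.log_exp] at this
      exact this
    have b5 : (R.d : ℝ) ^ n * gr R (gauss c _ r0) - (R.d : ℝ) ^ n * gr R (gauss c _ r1) ≤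
        (R.d : ℝ) ^ n * (ε / 2) := by
      rw [← mul_sub]
      exact mul_le_mul_of_nonneg_left b3.le hp.le
    rw [e0, e1]
    have hA' := hA
    nlinarith
  · intro x hx
    have hl := hlam x hx
    have h1 := (hII x hx).2
    have h2 : 0 ≤ n * Real.log B + Real.log (lam x c) := by
      have := Real.log_nonneg h1
      rw [Real.log_mul (by positivity) hl.ne', Real.log_pow] at this
      exact this
    rw [Real.log_div hδ0.ne' hl.ne']
    have := le_abs_self (Real.log δ)
    linarith
  · intro j hj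
    have rj : (0 : ℝ) < δ * Real.exp (-j) := by positivity
    have hc := hC K (R.iter n) (I.filter (fun x => (j : ℝ) < Real.log (δ / lam x c))) ∅ c
      (δ * Real.exp (-j)) ?_ (by simp) (by simp) (by simp) ?_ (by simp) rj
    · simp only [Finset.sum_empty, add_zero] at hc
      have hN3 := ((hN K (R.iter n) c _ rj).2.2.1 (δ * Real.exp (1 - j)) ?_).1
      · have hq : δ * Real.exp (1 - j) / (δ * Real.exp (-j)) = Real.exp 1 := by
          rw [mul_div_mul_left _ _ hδ0.ne', ← Real.exp_sub]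
          congr 1; ring
        rw [hq, Real.log_exp, mul_one] at hN3
        have e1 : φ (j + 1) = Real.log (Mx (R.iter n) c (δ * Real.exp (-j))) := by
          simp only [hφ]; push_cast; congr 3; ring_nf
        have hc' : ((∑ x ∈ I.filter (fun x => (j : ℝ) < Real.log (δ / lam x c)),
          (localDeg (R.iter n) (x : P1B K) - 1) : ℕ) : ℝ) ≤ Nw (R.iter n) c (δ * Real.exp (-j)) := by
          exact_mod_cast hc
        rw [e1]
        exact hc'.trans hN3
      · exact mul_lt_mul_of_pos_left (Real.exp_lt_exp.2 (by linarith)) hδ0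
    · intro x hx
      exact (hII x (Finset.mem_filter.1 hx).1).1
    · intro x hx
      rw [Finset.mem_filter] at hx
      have hl := hlam x hx.1
      have h1 := hx.2
      rw [Real.log_div hδ0.ne' hl.ne'] at h1
      have h2 : Real.log (lam x c) < Real.log (δ * Real.exp (-j)) := by
        rw [Real.log_mul hδ0.ne' (Real.exp_pos _).ne', Real.log_exp]
        linarith
      exact (Real.log_lt_log_iff hl rj).1 h2

theorem lam_zero {K : Type u} [NontriviallyNormedField K] (x : BA K) : lam x 0 = x X := by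
  unfold lam
  rw [C_0, sub_zero]

theorem uii (hC : S_C.{u}) (hN : S_NWI.{u}) (hG : S_GREEN.{u}) (hP : S_PATHI.{u})
    (hI : S_ITER.{u}) : S_UII.{u} := by
  classical
  intro K _ _ _ R hd B ε hB hε
  obtain ⟨B', hB'0, hB'⟩ := hG K R hd
  obtain ⟨δ₀, hδ₀, hpath⟩ := hP K R hd (ε / 2) (by positivity)
  have hiter := (hI K R).1
  set δ : ℝ := 3 * (δ₀ + 1) with hδ
  have hδ0 : 0 < δ := by positivity
  have hδ1 : 1 ≤ δ := by rw [hδ]; linarith
  have he3 := Real.exp_one_lt_three
  have hee : Real.exp (-1) * Real.exp 1 = 1 := by rw [← Real.exp_add]; simp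
  have hδe : δ₀ + 1 < δ * Real.exp (-1) := by
    have h1 : (1 : ℝ) < 3 * Real.exp (-1) := by
      have := Real.exp_pos (-1)
      nlinarith
    rw [hδ]
    nlinarith
  refine ⟨δ, hδ0, ?_⟩
  set A : ℝ := 2 * B' + Real.log δ + 2 with hA
  filter_upwards [growth A (Real.log B) (ε / 2) (by positivity) R.d hd] with n hn
  intro I hII
  have hp : (0 : ℝ) < (R.d : ℝ) ^ n := by
    have : (0 : ℝ) < R.d := by exact_mod_cast (show 0 < R.d by omega)
    positivity
  have hlB : 0 ≤ Real.log B := Real.log_nonneg hB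
  have hldel : 0 ≤ Real.log δ := Real.log_nonneg hδ1
  set J : ℕ := ⌈n * Real.log B⌉₊ with hJ
  have hJ1 : n * Real.log B ≤ J := Nat.le_ceil _
  have hJ2 : (J : ℝ) < n * Real.log B + 1 := Nat.ceil_lt_add_one (by positivity)
  have hwt : ∀ x ∈ I, ((localDeg (R.iter n) (x : P1B K) : ℝ) - 1) =
      ((localDeg (R.iter n) (x : P1B K) - 1 : ℕ) : ℝ) := by
    intro x hx
    have := (hII x hx).1.2.2
    rw [Nat.cast_sub (by omega)]
    simp
  have hre : ∑ x ∈ I, ((localDeg (R.iter n) (x : P1B K) : ℝ) - 1) *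
      max 0 (Real.log (x X / δ)) =
      ∑ x ∈ I, ((localDeg (R.iter n) (x : P1B K) - 1 : ℕ) : ℝ) *
      max 0 (Real.log (x X / δ)) := Finset.sum_congr rfl fun x hx => by rw [hwt x hx]
  rw [hre]
  set φ : ℕ → ℝ := fun j => Real.log (Mx (R.iter n) 0 (δ * Real.exp (j - 1))) with hφ
  have hlay := layer I (fun x => localDeg (R.iter n) (x : P1B K) - 1)
    (fun x => Real.log (x X / δ)) J (fun j => ((R.d : ℝ) ^ n + 1) - (φ (j + 1) - φ j)) ?_ ?_
  · refine hlay.trans ?_
    rw [Finset.sum_sub_distrib, Finset.sum_range_sub, Finset.sum_const, Finset.card_range,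
      nsmul_eq_mul]
    have r0 : (0 : ℝ) < δ * Real.exp (-1) := by positivity
    have r1 : (0 : ℝ) < δ * Real.exp J := by positivity
    have e0 : φ 0 = Real.log (Mx (R.iter n) 0 (δ * Real.exp (-1))) := by
      simp only [hφ]; simp
    have e1 : φ (J + 1) = Real.log (Mx (R.iter n) 0 (δ * Real.exp J)) := by
      simp only [hφ]; push_cast; congr 3; ring_nf
    have b0 := (logMx_le hN hd (fun x n => (hB' x).2 n) n 0 _ r0).1
    have b1 := (logMx_le hN hd (fun x n => (hB' x).2 n) n 0 _ r1).2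
    have hexp : (1 : ℝ) ≤ Real.exp J := Real.one_le_exp (by positivity)
    have hrr : 1 ≤ δ * Real.exp J := by nlinarith
    have b2 : δ₀ < δ * Real.exp J := by
      have : δ₀ < δ := by rw [hδ]; linarith
      nlinarith
    have b3 := (abs_lt.1 (hpath _ _ r1 r0 b2 (by linarith))).1
    have l1 : Real.log (δ * Real.exp J) = Real.log δ + J := by
      rw [Real.log_mul hδ0.ne' (Real.exp_pos _).ne', Real.log_exp]
    have l0 : Real.log (δ * Real.exp (-1)) = Real.log δ - 1 := by
      rw [Real.log_mul hδ0.ne' (Real.exp_pos _).ne', Real.log_exp]; ring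
    rw [l1, l0] at b3
    have c0 : max (max 1 ‖(0 : K)‖) (δ * Real.exp (-1)) = δ * Real.exp (-1) := by
      rw [norm_zero, max_eq_left zero_le_one, max_eq_right]
      linarith
    have c1 : max (max 1 (‖(0 : K)‖ / (δ * Real.exp J))) (1 / (δ * Real.exp J)) = 1 := by
      rw [norm_zero, zero_div, max_eq_left zero_le_one, max_eq_left]
      rw [div_le_one r1]
      exact hrr
    rw [c0, l0] at b0
    rw [c1, Real.log_one] at b1
    rw [e0, e1]
    have b5 : (R.d : ℝ) ^ n * ((J : ℝ) + 1 - ε / 2) ≤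
        (R.d : ℝ) ^ n * (gr R (gauss 0 _ r1) - gr R (gauss 0 _ r0)) := by
      apply mul_le_mul_of_nonneg_left _ hp.le
      linarith
    push_cast
    rw [mul_sub, mul_sub] at b5
    have hA' := hA
    nlinarith
  · intro x hx
    have h1 := (hII x hx).2
    rcases eq_or_lt_of_le (x.nonneg' X) with h0 | h0
    · rw [← h0, zero_div, Real.log_zero]
      positivity
    · rw [Real.log_div h0.ne' hδ0.ne']
      have h2 := Real.log_le_log h0 h1
      rw [Real.log_pow] at h2
      linarith
  · intro j hj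
    have rj : (0 : ℝ) < δ * Real.exp j := by positivity
    obtain ⟨M, hM0, hM⟩ : ∃ M : ℝ, δ * Real.exp j ≤ M ∧ ∀ x ∈ I, x X < M := by
      refine ⟨δ * Real.exp j + ∑ x ∈ I, (x X + 1), ?_, ?_⟩
      · have : 0 ≤ ∑ x ∈ I, (x X + 1) := Finset.sum_nonneg fun x _ => by
          have := x.nonneg' X
          positivity
        linarith
      · intro x hx
        have := Finset.single_le_sum (f := fun x : BA K => x X + 1) (fun y _ => by
          have := y.nonneg' X
          positivity) hx
        linarith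
    have hc := hC K (R.iter n) (I.filter (fun x => (j : ℝ) < Real.log (x X / δ)))
      {((0 : K), δ * Real.exp j)} 0 M ?_ ?_ ?_ ?_ ?_ ?_ (rj.trans_le hM0)
    · simp only [Finset.sum_singleton] at hc
      have rj1 : (0 : ℝ) < δ * Real.exp (j - 1) := by positivity
      have hN3 := ((hN K (R.iter n) 0 _ rj1).2.2.1 (δ * Real.exp j) ?_).2
      · have hq : δ * Real.exp j / (δ * Real.exp (j - 1)) = Real.exp 1 := by
          rw [mul_div_mul_left _ _ hδ0.ne', ← Real.exp_sub]
          congr 1; ring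
        rw [hq, Real.log_exp, mul_one] at hN3
        have hNd : Nw (R.iter n) 0 M ≤ R.d ^ n := by
          have := (hN K (R.iter n) 0 M (rj.trans_le hM0)).1
          rw [← hiter n]
          exact this.2.2.2.1.trans this.2.2.2.2.1
        have e1 : φ (j + 1) = Real.log (Mx (R.iter n) 0 (δ * Real.exp j)) := by
          simp only [hφ]; push_cast; congr 3; ring_nf
        have hc' : ((∑ x ∈ I.filter (fun x => (j : ℝ) < Real.log (x X / δ)),
          (localDeg (R.iter n) (x : P1B K) - 1) : ℕ) : ℝ) +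
            Nw (R.iter n) 0 (δ * Real.exp j) ≤ (R.d : ℝ) ^ n := by
          exact_mod_cast hc.trans hNd
        rw [e1]
        simp only [hφ]
        linarith
      · exact mul_lt_mul_of_pos_left (Real.exp_lt_exp.2 (by linarith)) hδ0
    · intro x hx
      exact (hII x (Finset.mem_filter.1 hx).1).1
    · intro p hp'
      rw [Finset.mem_singleton] at hp'
      rw [hp']
      exact rj
    · intro p hp' q hq' hne
      rw [Finset.mem_singleton] at hp' hq'
      exact absurd (hp'.trans hq'.symm) hne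
    · intro x hx q hq'
      rw [Finset.mem_singleton] at hq'
      rw [hq', lam_zero]
      rw [Finset.mem_filter] at hx
      have h1 := hx.2
      have hxp : 0 < x X / δ := by
        rcases eq_or_lt_of_le (x.nonneg' X) with h0 | h0
        · rw [← h0, zero_div, Real.log_zero] at h1
          have : (0 : ℝ) ≤ j := by positivity
          linarith
        · positivity
      rw [Real.lt_log_iff_exp_lt hxp, lt_div_iff₀ hδ0] at h1
      simp only
      linarith
    · intro x hx
      rw [lam_zero]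
      exact hM x (Finset.mem_filter.1 hx).1
    · intro p hp'
      rw [Finset.mem_singleton] at hp'
      rw [hp']
      simp only [sub_zero, norm_zero]
      exact ⟨rj.trans_le hM0, hM0⟩

end Pool.Agent.W15.BK
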